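import Mathlib

/-!
# MP_425159_co: quasigroups with `((xy)x)y = x` have order `0` or `1` modulo `4`

With `α (x, y) = (x, xy)`, `β (x, y) = (xy, y)` and `τ (x, y) = (y, x)` the identity says
`α β⁻¹ = β τ α`, so the exchange `τ` of the two coordinates of `S × S` is even.
-/

set_option autoImplicit false

namespace Pool.Agent.Results.MP_425159_co.OrderModFour

open Equiv

/-- `mul` is a quasigroup operation: the equations `a x = b` and `x a = b` have exactly one
solution. -/
def IsQuasigroup {S : Type} (mul : S → S → S) : Prop :=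
  ∀ a b : S, (∃! x, mul a x = b) ∧ ∃! x, mul x a = b

/-- an involution moving `2 m` points has sign `(-1)^m` -/
theorem sign_involution {X : Type} [Fintype X] [DecidableEq X] (σ : Perm X) (h : σ ^ 2 = 1)
    (m : ℕ) (hm : σ.support.card = 2 * m) : Perm.sign σ = (-1) ^ m := by
  haveI : Fact (Nat.Prime 2) := ⟨Nat.prime_two⟩
  have h1 : ∀ c ∈ σ.cycleType, c = 2 := Perm.pow_prime_eq_one_iff.mp h
  have h2 : σ.cycleType = Multiset.replicate (Multiset.card σ.cycleType) 2 :=
    Multiset.eq_replicate_card.mpr h1
  have h3 := Perm.sum_cycleType σ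
  rw [h2, Multiset.sum_replicate, hm, smul_eq_mul] at h3
  have h4 : Multiset.card σ.cycleType = m := by omega
  rw [Perm.sign_of_cycleType, Perm.sum_cycleType, hm, h4, pow_add, pow_mul]
  simp

/-- if the exchange of coordinates on `S × S` is even, then `|S|` is `0` or `1` modulo `4` -/
theorem card_of_swap_even {S : Type} [Fintype S] [DecidableEq S]
    (h : Perm.sign (Equiv.prodComm S S) = 1) :
    Fintype.card S % 4 = 0 ∨ Fintype.card S % 4 = 1 := by
  set n := Fintype.card S with hn
  have hsup : Perm.support (Equiv.prodComm S S : Perm (S × S)) =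
      (Finset.univ : Finset S).offDiag := by
    ext ⟨a, b⟩
    have hab : (Equiv.prodComm S S : Perm (S × S)) (a, b) = (b, a) := rfl
    rw [Perm.mem_support, hab]
    simp only [ne_eq, Prod.mk.injEq, Finset.mem_offDiag, Finset.mem_univ, true_and]
    constructor
    · intro h1 h2
      exact h1 ⟨h2.symm, h2⟩
    · rintro h1 ⟨h2, _⟩
      exact h1 h2.symm
  have hcard : (Perm.support (Equiv.prodComm S S : Perm (S × S))).card = n * n - n := by
    rw [hsup, Finset.offDiag_card, Finset.card_univ]
  have hle : n ≤ n * n := Nat.le_mul_self n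
  obtain ⟨m, hm⟩ : ∃ m, n * n - n = 2 * m := by
    have : Even (n * n - n) := by
      rw [Nat.even_sub hle]
      simp [Nat.even_mul]
    obtain ⟨m, hm⟩ := this
    exact ⟨m, by omega⟩
  have hsq : (Equiv.prodComm S S : Perm (S × S)) ^ 2 = 1 := by
    refine Equiv.ext ?_
    rintro ⟨a, b⟩
    rfl
  have hsign := sign_involution _ hsq m (hcard.trans hm)
  rw [h] at hsign
  have hme : Even m := by
    by_contra hodd
    rw [Nat.not_even_iff_odd] at hodd
    rw [hodd.neg_one_pow] at hsign
    exact absurd hsign (by decide)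
  obtain ⟨j, hj⟩ := hme
  have h4 : n * n = n + 4 * j := by omega
  have h5 : (n * n) % 4 = n % 4 := by rw [h4]; omega
  have h6 : n % 4 < 4 := Nat.mod_lt _ (by norm_num)
  rw [Nat.mul_mod] at h5
  interval_cases h7 : n % 4 <;> omega

/-- a family of permutations of the second coordinate -/
noncomputable def fibre {S : Type} (f : S → S → S) (hf : ∀ x, Function.Bijective (f x)) :
    Perm (S × S) :=
  Equiv.ofBijective (fun p => (p.1, f p.1 p.2)) (by
    constructor
    · rintro ⟨a, b⟩ ⟨c, d⟩ h
      simp only [Prod.mk.injEq] at h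
      obtain ⟨rfl, h⟩ := h
      exact Prod.ext rfl ((hf a).1 h)
    · rintro ⟨a, b⟩
      obtain ⟨c, hc⟩ := (hf a).2 b
      exact ⟨(a, c), by simp [hc]⟩)

/-- Every finite quasigroup with `((xy)x)y = x` has order congruent to `0` or `1` modulo `4`. -/
theorem result (S : Type) [Fintype S] (mul : S → S → S) (hq : IsQuasigroup mul)
    (hid : ∀ x y : S, mul (mul (mul x y) x) y = x) :
    Fintype.card S % 4 = 0 ∨ Fintype.card S % 4 = 1 := by
  classical
  -- left translations, right translations
  have hL : ∀ x, Function.Bijective (mul x) := by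
    intro x
    constructor
    · intro a b hab
      exact (hq x (mul x b)).1.unique hab rfl
    · intro b
      obtain ⟨a, ha, _⟩ := (hq x b).1
      exact ⟨a, ha⟩
  have hR : ∀ y, Function.Bijective (fun x => mul x y) := by
    intro y
    constructor
    · intro a b hab
      exact (hq y (mul b y)).2.unique hab rfl
    · intro b
      obtain ⟨a, ha, _⟩ := (hq y b).2
      exact ⟨a, ha⟩
  let α : Perm (S × S) := fibre mul hL
  let β : Perm (S × S) := fibre (fun y x => mul x y) hR
  let σ : Perm (S × S) := Equiv.prodComm S S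
  have hα : ∀ x y, α (x, y) = (x, mul x y) := fun _ _ => rfl
  have hβ : ∀ x y, β (y, x) = (y, mul x y) := fun _ _ => rfl
  have hσ : ∀ x y, σ (x, y) = (y, x) := fun _ _ => rfl
  -- `(y, v) ↦ (y, x) = (y, v y) ↦ (x, y) ↦ (x, x y) ↦ (x, (x y) x) = (x, v) ↦ (v, x) = (v, v y)`
  have key : σ * β * α * σ * β = α * σ := by
    refine Equiv.ext ?_
    rintro ⟨y, v⟩
    simp only [Perm.mul_apply, hσ, hα, hβ]
    have h1 : mul (mul (mul v y) y) (mul v y) = v := by
      apply (hR y).1
      exact hid (mul v y) y
    rw [h1]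
  have hs := congrArg Perm.sign key
  simp only [map_mul] at hs
  have h2 : ∀ a b c : ℤˣ, c * b * a * c * b = a * c → c = 1 := by decide
  exact card_of_swap_even (h2 _ _ _ hs)

end Pool.Agent.Results.MP_425159_co.OrderModFour
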